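import Pool.Agent.Results.MP_092512_nt.BothShapesParity
import Pool.Agent.V11285.SV

/-!
# Both parities for almost prime quadruples of both shapes in sparse sequences

For `c > 1` and all `α > 0` outside a set of Hausdorff dimension less than `1`, for `D = {0, 2, 6, 8}` or `{0, 4, 6, 10}`, every
`S ⊆ D` with an odd number of elements and every `η > 0` there are `R` and `δ > 0` such that for at least `N ^ (1 - η)` of the
`n ≤ N`, with `m = ⌊α n ^ c⌋`: the numbers `m + h`, `h ∈ D`, have at most `R` prime factors, all greater than `m ^ δ`, and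
the product of the `m + h`, `h ∈ S`, has an odd number of prime factors; and the same with an even number.
-/

set_option autoImplicit false

namespace Pool.Agent.Results.MP_092512_nt.SparseParity

open Filter
open ArithmeticFunction (cardFactors)

/-- The numbers `m + h`, `h ∈ D`, have at most `R` prime factors, all greater than `m ^ δ`. -/
def AlmostPrimes (D : Finset ℕ) (R : ℕ) (δ : ℝ) (m : ℕ) : Prop :=
  ∀ h ∈ D, cardFactors (m + h) ≤ R ∧ ∀ p : ℕ, p.Prime → p ∣ m + h → (m : ℝ) ^ δ < p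

/-- **Both parities in sparse sequences.** -/
theorem result (c : ℝ) (hc : 1 < c) :
    ∃ E : Set ℝ, dimH E < 1 ∧ ∀ α : ℝ, 0 < α → α ∉ E →
      ∀ D : Finset ℕ, D = {0, 2, 6, 8} ∨ D = {0, 4, 6, 10} → ∀ S : Finset ℕ, S ⊆ D → Odd S.card →
      ∀ η : ℝ, 0 < η → ∃ (R : ℕ) (δ : ℝ), 0 < δ ∧ ∀ᶠ N : ℕ in atTop,
        (N : ℝ) ^ (1 - η) ≤ ({n : ℕ | 1 ≤ n ∧ n ≤ N ∧ AlmostPrimes D R δ ⌊α * (n : ℝ) ^ c⌋₊ ∧
          Odd (∑ h ∈ S, cardFactors (⌊α * (n : ℝ) ^ c⌋₊ + h))}.ncard : ℝ) ∧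
        (N : ℝ) ^ (1 - η) ≤ ({n : ℕ | 1 ≤ n ∧ n ≤ N ∧ AlmostPrimes D R δ ⌊α * (n : ℝ) ^ c⌋₊ ∧
          Even (∑ h ∈ S, cardFactors (⌊α * (n : ℝ) ^ c⌋₊ + h))}.ncard : ℝ) := by
  obtain ⟨E, hE, h⟩ := Pool.Agent.V11285.SV.parity c hc
  exact ⟨E, hE, fun α hα hαE D hD S hS hodd η hη =>
    h α hα hαE D S (fun ε hε => BothShapesParity.result D hD S hS hodd ε hε) η hη⟩

end Pool.Agent.Results.MP_092512_nt.SparseParity
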